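import Pool.Agent.NDR.StmtsG

/-! Row GEN of squad NDR (MP_b48657_ag): the generic fibre is nondegenerate. -/

set_option autoImplicit false

namespace Pool.Agent.NDR.H50

open Finset Pool.Agent.NDR

section basics

variable {ι K : Type} [Field K]

theorem tht_coeff (v : ι) (h : Lr K ι) (m : ι → ℤ) :
    (tht v h).coeff m = ((m v : ℤ) : K) * h.coeff m := by
  classical
  unfold tht
  rw [AddMonoidAlgebra.coeff_ofCoeff, Finsupp.sum_apply, Finsupp.sum]
  simp only [Finsupp.single_apply]
  rw [Finset.sum_ite_eq' h.coeff.support m fun x => ((x v : ℤ) : K) * h.coeff x]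
  split_ifs with hm
  · rfl
  · rw [Finsupp.notMem_support_iff.mp hm, mul_zero]

theorem cut_coeff (Q : Set (ι → ℤ)) (h : Lr K ι) (m : ι → ℤ) (hm : m ∈ Q) :
    (cut Q h).coeff m = h.coeff m := by
  classical
  unfold cut
  rw [AddMonoidAlgebra.coeff_ofCoeff, Finsupp.filter_apply, if_pos hm]

theorem cut_coeff' (Q : Set (ι → ℤ)) (h : Lr K ι) (m : ι → ℤ) (hm : m ∉ Q) :
    (cut Q h).coeff m = 0 := by
  classical
  unfold cut
  rw [AddMonoidAlgebra.coeff_ofCoeff, Finsupp.filter_apply, if_neg hm]

open Classical in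
theorem spz_coeff {K' : Type} [Field K'] [Algebra K K'] [DecidableEq ι] (r : ι) (t : K')
    (h : Lr K ι) (m' : ι → ℤ) :
    (spz r t h).coeff m' = h.coeff.sum fun m c =>
      if Function.update m r 0 = m' then t ^ (m r) * algebraMap K K' c else 0 := by
  classical
  unfold spz
  rw [AddMonoidAlgebra.coeff_ofCoeff, Finsupp.sum_apply]
  simp only [Finsupp.single_apply]

theorem spz_supp {K' : Type} [Field K'] [Algebra K K'] [DecidableEq ι] (r : ι) (t : K')
    (h : Lr K ι) (m' : ι → ℤ) (hm : (spz r t h).coeff m' ≠ 0) :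
    ∃ m, h.coeff m ≠ 0 ∧ Function.update m r 0 = m' := by
  classical
  rw [spz_coeff, Finsupp.sum] at hm
  obtain ⟨m, hm1, hm2⟩ := Finset.exists_ne_zero_of_sum_ne_zero hm
  refine ⟨m, Finsupp.mem_support_iff.mp hm1, ?_⟩
  by_contra hc
  rw [if_neg hc] at hm2
  exact hm2 rfl

end basics

/-- the ideal of the combinations of two families -/
def idl {R : Type} [CommRing R] {α β : Type} (S : Finset α) (T : Finset β) (u : α → R)
    (w : β → R) : Ideal R where
  carrier := {x | ∃ (b : α → R) (b' : β → R), ∑ i ∈ S, b i * u i + ∑ k ∈ T, b' k * w k = x}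
  zero_mem' := ⟨0, 0, by simp⟩
  add_mem' := by
    rintro x y ⟨b, b', rfl⟩ ⟨c, c', rfl⟩
    refine ⟨b + c, b' + c', ?_⟩
    simp only [Pi.add_apply, add_mul, Finset.sum_add_distrib]
    ring
  smul_mem' := by
    rintro c x ⟨b, b', rfl⟩
    refine ⟨fun i => c * b i, fun k => c * b' k, ?_⟩
    simp only [smul_eq_mul, mul_add, Finset.mul_sum, mul_assoc]

theorem idl_left {R : Type} [CommRing R] {α β : Type} (S : Finset α) (T : Finset β) (u : α → R)
    (w : β → R) (i : α) (hi : i ∈ S) : u i ∈ idl S T u w := by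
  classical
  refine ⟨fun j => if j = i then 1 else 0, 0, ?_⟩
  simp [hi]

theorem idl_right {R : Type} [CommRing R] {α β : Type} (S : Finset α) (T : Finset β) (u : α → R)
    (w : β → R) (k : β) (hk : k ∈ T) : w k ∈ idl S T u w := by
  classical
  refine ⟨0, fun j => if j = k then 1 else 0, ?_⟩
  simp [hk]

section mapc

variable {ι F K' : Type} [Field F] [Field K'] [Algebra F K']

/-- base change of the coefficients -/
noncomputable def mpc (ι F K' : Type) [Field F] [Field K'] [Algebra F K'] :
    Lr F ι →+* Lr K' ι :=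
  AddMonoidAlgebra.mapRingHom (ι → ℤ) (algebraMap F K')

theorem mpc_coeff (h : Lr F ι) (m : ι → ℤ) :
    (mpc ι F K' h).coeff m = algebraMap F K' (h.coeff m) := by
  unfold mpc
  simp

theorem mpc_tht (v : ι) (h : Lr F ι) : mpc ι F K' (tht v h) = tht v (mpc ι F K' h) := by
  apply AddMonoidAlgebra.ext
  apply Finsupp.ext
  intro m
  rw [mpc_coeff, tht_coeff, tht_coeff, mpc_coeff, map_mul, map_intCast]

theorem mpc_spz {K : Type} [Field K] [Algebra K F] [Algebra K K'] [IsScalarTower K F K']
    [DecidableEq ι] (r : ι) (t : F) (h : Lr K ι) :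
    mpc ι F K' (spz r t h) = spz r (algebraMap F K' t) h := by
  apply AddMonoidAlgebra.ext
  apply Finsupp.ext
  intro m
  rw [mpc_coeff, spz_coeff, spz_coeff, map_finsuppSum]
  apply Finsupp.sum_congr
  intro x _
  by_cases hx : Function.update x r 0 = m
  · rw [if_pos hx, if_pos hx, map_mul, map_zpow₀, ← IsScalarTower.algebraMap_apply]
  · rw [if_neg hx, if_neg hx, map_zero]

end mapc

/-- ROW GEN -/
theorem gen (hsph : SphStmt) (hdev : DevStmt) : GenStmt := by
  intro ι K _ _ _ _ I A D κ N r F f s η hH hID hrI hrD hFA hf hη hU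
  obtain ⟨E, hED, b, b', hb⟩ := hU
  obtain ⟨hN, hκ, hpr⟩ := hH
  let F₁ : Type := FractionRing (Polynomial K)
  let K' : Type := AlgebraicClosure (FractionRing (Polynomial K))
  let t₁ : F₁ := algebraMap (Polynomial K) (FractionRing (Polynomial K)) Polynomial.X
  let t : K' :=
    algebraMap (Polynomial K) (AlgebraicClosure (FractionRing (Polynomial K))) Polynomial.X
  have ht : algebraMap (FractionRing (Polynomial K))
      (AlgebraicClosure (FractionRing (Polynomial K))) t₁ = t :=
    (IsScalarTower.algebraMap_apply (Polynomial K) (FractionRing (Polynomial K))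
      (AlgebraicClosure (FractionRing (Polynomial K))) Polynomial.X).symm
  have ht₁0 : t₁ ≠ 0 := by
    have h := IsFractionRing.injective (Polynomial K) (FractionRing (Polynomial K))
    intro h0
    apply Polynomial.X_ne_zero (R := K)
    apply h
    rw [map_zero]
    exact h0
  have ht0 : t ≠ 0 := by
    rw [← ht]
    intro h0
    exact ht₁0 ((map_eq_zero _).mp h0)
  obtain ⟨⟨φ, hφ⟩, hθ, hcut⟩ := (hsph ι K r).1 (FractionRing (Polynomial K)) t₁ ht₁0
  obtain ⟨-, -, hcut'⟩ :=
    (hsph ι K r).1 (AlgebraicClosure (FractionRing (Polynomial K))) t ht0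
  set g : Lr K ι := cut (ov I F) f with hg
  -- exponents of `g_t`
  have hgt : ∀ m, (spz r t₁ g).coeff m ≠ 0 → m ∈ ov I F ∩ dd D := by
    intro m hm
    obtain ⟨m₀, hm₀, rfl⟩ := spz_supp r t₁ g m hm
    have hm1 : m₀ ∈ ov I F := by
      by_contra hc
      exact hm₀ (cut_coeff' (ov I F) f m₀ hc)
    have hm2 : f.coeff m₀ ≠ 0 := by
      rw [hg, cut_coeff (ov I F) f m₀ hm1] at hm₀
      exact hm₀
    obtain ⟨-, hm3⟩ := hf m₀ hm2
    constructor
    · obtain ⟨a, ha, hai⟩ := hm1
      refine ⟨a, ha, fun i hi => ?_⟩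
      rw [Function.update_of_ne (fun h : i = r => hrI (h ▸ hi))]
      exact hai i hi
    · intro j hj
      rw [Function.update_of_ne (fun h : j = r => hrD (h ▸ hj))]
      exact hm3 j hj
  let E' : Finset ι := Finset.univ \ insert r D
  let 𝔞 : Ideal (Lr (FractionRing (Polynomial K)) ι) :=
    idl E' (Finset.range s) (fun i => tht i (spz r t₁ g)) (fun k => φ (cut (ov I F) (η k)))
  have hL : ∀ i, i ≠ r → tht i (spz r t₁ g) ∈ 𝔞 := by
    intro i hi
    by_cases hiD : i ∈ D
    · have h0 : tht i (spz r t₁ g) = 0 := by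
        apply AddMonoidAlgebra.ext
        apply Finsupp.ext
        intro m
        rw [tht_coeff]
        by_cases hm : (spz r t₁ g).coeff m = 0
        · rw [hm, mul_zero]
          rfl
        · rw [(hgt m hm).2 i hiD, Int.cast_zero, zero_mul]
          rfl
      rw [h0]
      exact 𝔞.zero_mem
    · exact idl_left E' (Finset.range s) (fun i => tht i (spz r t₁ g)) _ i (by
        simp only [E', Finset.mem_sdiff, Finset.mem_univ, true_and, Finset.mem_insert, not_or]
        exact ⟨hi, hiD⟩)
  have hN0 : ((N : ℤ) : FractionRing (Polynomial K)) ≠ 0 := by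
    exact_mod_cast hN.ne'
  have hgm : spz r t₁ g ∈ 𝔞 := by
    have hsum : spz r t₁ g = ((N : ℤ) : FractionRing (Polynomial K))⁻¹ •
        ∑ i ∈ I, ((κ i : ℤ) : FractionRing (Polynomial K)) • tht i (spz r t₁ g) := by
      apply AddMonoidAlgebra.ext
      apply Finsupp.ext
      intro m
      rw [AddMonoidAlgebra.coeff_smul, Finsupp.smul_apply, AddMonoidAlgebra.coeff_sum,
        Finsupp.finsetSum_apply]
      simp only [AddMonoidAlgebra.coeff_smul, Finsupp.smul_apply, tht_coeff, smul_eq_mul]
      by_cases hm : (spz r t₁ g).coeff m = 0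
      · rw [hm]
        simp
      · obtain ⟨⟨a, ha, hai⟩, -⟩ := hgt m hm
        have h1 : ∑ i ∈ I, κ i * m i = N := by
          rw [← hpr a (hFA ha)]
          unfold pr
          rw [← Finset.sum_subset (Finset.subset_univ I)]
          · apply Finset.sum_congr rfl
            intro i hi
            rw [hai i hi]
            simp
          · intro i _ hi
            rw [hκ i hi]
            simp
        have h2 : ∑ i ∈ I, ((κ i : ℤ) : FractionRing (Polynomial K)) *
            (((m i : ℤ) : FractionRing (Polynomial K)) * (spz r t₁ g).coeff m) =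
            ((N : ℤ) : FractionRing (Polynomial K)) * (spz r t₁ g).coeff m := by
          rw [← h1, Int.cast_sum, Finset.sum_mul]
          apply Finset.sum_congr rfl
          intro i _
          rw [Int.cast_mul, mul_assoc]
        rw [h2, ← mul_assoc, inv_mul_cancel₀ hN0, one_mul]
    rw [hsum]
    apply Submodule.smul_of_tower_mem
    apply Submodule.sum_mem
    intro i hi
    apply Submodule.smul_of_tower_mem
    exact hL i (fun h => hrI (h ▸ hi))
  obtain ⟨n, hn⟩ := hdev ι K r g 𝔞 hgm hL
  have hrad : φ (tht r g) ∈ 𝔞.radical := ⟨n, by rw [hφ]; exact hn⟩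
  have h1 : (1 : Lr (FractionRing (Polynomial K)) ι) ∈ 𝔞.radical := by
    have hb2 := congrArg φ hb
    rw [map_one, map_add, map_sum, map_sum] at hb2
    rw [← hb2]
    apply Ideal.add_mem
    · apply Ideal.sum_mem
      intro i hi
      rw [map_mul]
      apply Ideal.mul_mem_left
      by_cases hir : i = r
      · rw [hir]
        exact hrad
      · apply Ideal.le_radical
        rw [hφ, hθ i hir]
        exact hL i hir
    · apply Ideal.sum_mem
      intro k hk
      rw [map_mul]
      apply Ideal.mul_mem_left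
      apply Ideal.le_radical
      exact idl_right E' (Finset.range s) (fun i => tht i (spz r t₁ g))
        (fun k => φ (cut (ov I F) (η k))) k hk
  obtain ⟨n', hn'⟩ := h1
  rw [one_pow] at hn'
  obtain ⟨c, c', hc⟩ := hn'
  refine ⟨E', ?_, ?_⟩
  · exact Finset.sdiff_disjoint
  · refine ⟨fun i => mpc ι (FractionRing (Polynomial K))
        (AlgebraicClosure (FractionRing (Polynomial K))) (c i),
      fun k => mpc ι (FractionRing (Polynomial K))
        (AlgebraicClosure (FractionRing (Polynomial K))) (c' k), ?_⟩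
    have hc2 := congrArg (mpc ι (FractionRing (Polynomial K))
        (AlgebraicClosure (FractionRing (Polynomial K)))) hc
    rw [map_one, map_add, map_sum, map_sum] at hc2
    rw [← hc2]
    congr 1
    · apply Finset.sum_congr rfl
      intro i _
      beta_reduce
      rw [map_mul, mpc_tht, mpc_spz, ht, hg]
      rw [← hcut' I F f hrI]
    · apply Finset.sum_congr rfl
      intro k _
      beta_reduce
      rw [map_mul, hφ, mpc_spz, ht]
      rw [← hcut' I F (η k) hrI]

end Pool.Agent.NDR.H50
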